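import Pool.Agent.L0h83.OD.Lev

/-!
# Project OD (helper99), module CAGE: the cubic graphs with girth twelve and 126 vertices
-/

set_option autoImplicit false
set_option linter.unusedSectionVars false

namespace Pool.Agent.L0h83.OD

open Finset Pool.Agent.TH676.Z Pool.Agent.Y335.FL Pool.Agent.Y335.FL.Ahl Pool.Agent.L0h99.OD

section flow

variable {V E : Type} [Fintype V] [DecidableEq V] [Fintype E] [DecidableEq E] {src dst : E → V}

/-- the proper edges at `x` -/
def Ev (src dst : E → V) (x : V) : Finset E :=
  univ.filter (fun e => src e ≠ dst e ∧ (src e = x ∨ dst e = x))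

/-- the edge `e` belongs to the matching `f` of the vertices in `A` -/
def IsM (src dst : E → V) (A : Finset V) (f : V → V) (e : E) : Prop :=
  (src e ∈ A ∧ f (src e) = dst e) ∨ (dst e ∈ A ∧ f (dst e) = src e)

/-- a bipartite cubic multigraph with a perfect matching has a nowhere-zero flow -/
lemma flow (A B : Finset V) (f : V → V)
    (hE : ∀ e, src e ≠ dst e → (src e ∈ A ∧ dst e ∈ B) ∨ (src e ∈ B ∧ dst e ∈ A))
    (hAB : Disjoint A B)
    (h3 : ∀ x, (∃ e, e ∈ Ev src dst x) → (Ev src dst x).card = 3)
    (hM : ∀ x, (∃ e, e ∈ Ev src dst x) → ∃ e ∈ Ev src dst x, IsM src dst A f e ∧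
      ∀ e' ∈ Ev src dst x, IsM src dst A f e' → e' = e) :
    FlowOn src dst ∅ ∅ := by
  classical
  obtain ⟨c, hc⟩ : ∃ c : E → ZMod 5, c = fun e => if IsM src dst A f e then 2 else -1 := ⟨_, rfl⟩
  obtain ⟨g, hg⟩ : ∃ g : E → ZMod 5, g = fun e => if src e = dst e then 1 else
    if src e ∈ A then c e else - c e := ⟨_, rfl⟩
  have hc0 : ∀ e, c e ≠ 0 := by
    intro e
    rw [hc]
    beta_reduce
    split_ifs
    · decide
    · decide
  have hsum : ∀ x, ∑ e ∈ Ev src dst x, c e = 0 := by
    intro x
    by_cases hx : ∃ e, e ∈ Ev src dst x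
    · obtain ⟨e, he, hem, huni⟩ := hM x hx
      have h1 := h3 x hx
      rw [← add_sum_erase _ _ he]
      have h2 : ∀ e' ∈ (Ev src dst x).erase e, c e' = -1 := by
        intro e' he'
        rw [mem_erase] at he'
        rw [hc]
        beta_reduce
        rw [if_neg]
        intro h
        exact he'.1 (huni e' he'.2 h)
      rw [sum_congr rfl h2, sum_const, card_erase_of_mem he, h1]
      rw [hc]
      beta_reduce
      rw [if_pos hem]
      decide
    · apply sum_eq_zero
      intro e he
      exact absurd ⟨e, he⟩ hx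
  refine ⟨g, ?_, fun e he => absurd he (notMem_empty _), fun e _ _ => ?_⟩
  · intro v
    have h1 : bd src dst g v = ∑ e ∈ Ev src dst v,
        ((if src e = v then g e else 0) - (if dst e = v then g e else 0)) := by
      unfold bd
      symm
      apply sum_subset (subset_univ _)
      intro e _ he
      unfold Ev at he
      rw [mem_filter] at he
      by_cases h2 : src e = dst e
      · rw [h2]; ring
      · have h3 : ¬ (src e = v ∨ dst e = v) := fun h => he ⟨mem_univ _, h2, h⟩
        rw [not_or] at h3
        rw [if_neg h3.1, if_neg h3.2]; ring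
    rw [h1]
    by_cases hvA : v ∈ A
    · have h2 : ∀ e ∈ Ev src dst v,
          ((if src e = v then g e else 0) - (if dst e = v then g e else 0)) = c e := by
        intro e he
        unfold Ev at he
        rw [mem_filter] at he
        obtain ⟨_, hne, hor⟩ := he
        rcases hE e hne with h | h
        · have h4 : src e = v := by
            rcases hor with h5 | h5
            · exact h5
            · exact absurd (h5 ▸ h.2) (disjoint_left.1 hAB hvA)
          have h5 : ¬ dst e = v := fun h6 => hne (h4.trans h6.symm)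
          rw [if_pos h4, if_neg h5, hg]
          beta_reduce
          rw [if_neg hne, if_pos h.1]
          ring
        · have h4 : dst e = v := by
            rcases hor with h5 | h5
            · exact absurd (h5 ▸ h.1) (disjoint_left.1 hAB hvA)
            · exact h5
          have h5 : ¬ src e = v := fun h6 => hne (h6.trans h4.symm)
          have h6 : src e ∉ A := fun h7 => disjoint_left.1 hAB h7 h.1
          rw [if_neg h5, if_pos h4, hg]
          beta_reduce
          rw [if_neg hne, if_neg h6]
          ring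
      rw [sum_congr rfl h2]
      exact hsum v
    · have h2 : ∀ e ∈ Ev src dst v,
          ((if src e = v then g e else 0) - (if dst e = v then g e else 0)) = - c e := by
        intro e he
        unfold Ev at he
        rw [mem_filter] at he
        obtain ⟨_, hne, hor⟩ := he
        rcases hE e hne with h | h
        · have h4 : dst e = v := by
            rcases hor with h5 | h5
            · exact absurd (h5 ▸ h.1) hvA
            · exact h5
          have h5 : ¬ src e = v := fun h6 => hne (h6.trans h4.symm)
          rw [if_neg h5, if_pos h4, hg]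
          beta_reduce
          rw [if_neg hne, if_pos h.1]
          ring
        · have h4 : src e = v := by
            rcases hor with h5 | h5
            · exact h5
            · exact absurd (h5 ▸ h.2) hvA
          have h5 : ¬ dst e = v := fun h6 => hne (h4.trans h6.symm)
          have h6 : src e ∉ A := fun h7 => disjoint_left.1 hAB h7 h.1
          rw [if_pos h4, if_neg h5, hg]
          beta_reduce
          rw [if_neg hne, if_neg h6]
          ring
      rw [sum_congr rfl h2, sum_neg_distrib, hsum v, neg_zero]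
  · rw [hg]
    beta_reduce
    split_ifs
    · decide
    · exact hc0 e
    · exact neg_ne_zero.2 (hc0 e)

end flow

theorem t_CAGE : S_CAGE := by
  classical
  intro V E _ _ _ _ src dst hg h3 np hB
  obtain ⟨W, hWcard, hW⟩ := hB
  -- the simple graph
  have hsymm : ∀ a b, Adj src dst a b → Adj src dst b a := by
    rintro a b ⟨h1, e, he⟩
    exact ⟨h1.symm, e, he.symm⟩
  have hirr : ∀ a, ¬ Adj src dst a a := fun a h => h.1 rfl
  let G : SimpleGraph V := { Adj := Adj src dst, symm := ⟨hsymm⟩, loopless := ⟨hirr⟩ }
  let _ : DecidableRel G.Adj := Classical.decRel _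
  have hgG : Girth G.Adj 12 := hg
  -- the edge joining two adjacent vertices
  have hjn : ∀ x y, G.Adj x y → ∃ e, Jn src dst e x y := fun x y h => h.2
  have hEv : ∀ x, (Ev src dst x).card = dg src dst x := fun x => rfl
  have hEvne : ∀ x, (∃ e, e ∈ Ev src dst x) → ∃ y, G.Adj x y := by
    rintro x ⟨e, he⟩
    unfold Ev at he
    rw [mem_filter] at he
    obtain ⟨_, hne, h | h⟩ := he
    · exact ⟨dst e, by rw [← h]; exact hne, e, Or.inl ⟨h, rfl⟩⟩
    · exact ⟨src e, by rw [← h]; exact hne.symm, e, Or.inr ⟨rfl, h⟩⟩
  -- degrees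
  have hdeg : ∀ x y, G.Adj x y → G.degree x = 3 := by
    intro x y hxy
    rw [← h3 x y hxy, ← hEv x, ← G.card_neighborFinset_eq_degree]
    -- the other end
    apply le_antisymm
    · have h1 : ∀ u : V, ∃ e : E, G.Adj x u → Jn src dst e x u := by
        intro u
        by_cases h : G.Adj x u
        · obtain ⟨e, he⟩ := hjn x u h
          exact ⟨e, fun _ => he⟩
        · obtain ⟨e, he⟩ := hjn x y hxy
          exact ⟨e, fun h' => absurd h' h⟩
      choose φ hφ using h1
      apply card_le_card_of_injOn φ
      · intro u hu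
        rw [mem_coe, G.mem_neighborFinset] at hu
        have h2 := hφ u hu
        have h3 : x ≠ u := hu.1
        unfold Ev
        rw [mem_coe, mem_filter]
        rcases h2 with ⟨a, b⟩ | ⟨a, b⟩
        · exact ⟨mem_univ _, by rw [a, b]; exact h3, Or.inl a⟩
        · exact ⟨mem_univ _, by rw [a, b]; exact h3.symm, Or.inr b⟩
      · intro u hu u' hu' he
        rw [mem_coe, G.mem_neighborFinset] at hu hu'
        have h2 := hφ u hu
        have h2' := hφ u' hu'
        rw [he] at h2
        rcases h2 with ⟨a, b⟩ | ⟨a, b⟩ <;> rcases h2' with ⟨a', b'⟩ | ⟨a', b'⟩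
        · exact b.symm.trans b'
        · exact absurd (a'.symm.trans a) hu'.1.symm
        · exact absurd (a.symm.trans a') hu.1.symm
        · exact a.symm.trans a'
    · apply card_le_card_of_injOn (fun e => if src e = x then dst e else src e)
      · intro e he
        unfold Ev at he
        rw [mem_coe, mem_filter] at he
        obtain ⟨_, hne, hor⟩ := he
        rw [mem_coe, G.mem_neighborFinset]
        beta_reduce
        split_ifs with h
        · exact ⟨by rw [← h]; exact hne, e, Or.inl ⟨h, rfl⟩⟩
        · have h4 : dst e = x := by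
            rcases hor with h5 | h5
            · exact absurd h5 h
            · exact h5
          exact ⟨by rw [← h4]; exact hne.symm, e, Or.inr ⟨rfl, h4⟩⟩
      · intro e he e' he' hee
        unfold Ev at he he'
        rw [mem_coe, mem_filter] at he he'
        obtain ⟨_, hne, hor⟩ := he
        obtain ⟨_, hne', hor'⟩ := he'
        beta_reduce at hee
        have key : ∀ e : E, src e ≠ dst e → (src e = x ∨ dst e = x) →
            x ≠ (if src e = x then dst e else src e) ∧
            Jn src dst e x (if src e = x then dst e else src e) := by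
          intro e hne hor
          split_ifs with h
          · exact ⟨by rw [← h]; exact hne, Or.inl ⟨h, rfl⟩⟩
          · have h4 : dst e = x := by
              rcases hor with h5 | h5
              · exact absurd h5 h
              · exact h5
            exact ⟨by rw [← h4]; exact hne.symm, Or.inr ⟨rfl, h4⟩⟩
        obtain ⟨k1, k2⟩ := key e hne hor
        obtain ⟨k3, k4⟩ := key e' hne' hor'
        rw [← hee] at k4
        exact np e e' x _ k1 k2 k4
  have hd : ∀ x y, G.Adj x y → 3 ≤ G.degree x := fun x y h => (hdeg x y h).ge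
  -- an edge
  obtain ⟨w0, hw0⟩ : ∃ w, w ∈ W := card_pos.1 (by omega)
  obtain ⟨w1, hw01⟩ := (hW w0).1 hw0
  have hxy : G.Adj w0 w1 := hw01
  set A := AA G w0 w1 with hA
  set B := AA G w1 w0 with hBd
  have hAB : Disjoint A B := AA_disj hgG hxy
  have hAc : 63 ≤ A.card := AA_card hgG hd hxy
  have hBc : 63 ≤ B.card := AA_card hgG hd hxy.symm
  have hsubW : A ∪ B ⊆ W := by
    intro w hw
    rw [mem_union] at hw
    rw [hW]
    rcases hw with hw | hw
    · exact AA_nis hw
    · exact AA_nis hw
  have hABc := card_le_card hsubW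
  rw [card_union_of_disjoint hAB, hWcard] at hABc
  have hAc' : A.card = 63 := by omega
  have hBc' : B.card = 63 := by omega
  have hABW : A ∪ B = W := by
    apply eq_of_subset_of_card_le hsubW
    rw [card_union_of_disjoint hAB, hWcard]
    omega
  have hAi : ∀ a ∈ A, ∀ b ∈ A, ¬ G.Adj a b := fun a ha b hb => AA_indep hgG ha hb
  have hBi : ∀ a ∈ B, ∀ b ∈ B, ¬ G.Adj a b := fun a ha b hb => AA_indep hgG ha hb
  have hmemAB : ∀ a b, G.Adj a b → (a ∈ A ∧ b ∈ B) ∨ (a ∈ B ∧ b ∈ A) := by
    intro a b hab
    have h1 : a ∈ A ∪ B := by rw [hABW, hW]; exact ⟨b, hab⟩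
    have h2 : b ∈ A ∪ B := by rw [hABW, hW]; exact ⟨a, hsymm _ _ hab⟩
    rw [mem_union] at h1 h2
    rcases h1 with h1 | h1 <;> rcases h2 with h2 | h2
    · exact absurd hab (hAi a h1 b h2)
    · exact Or.inl ⟨h1, h2⟩
    · exact Or.inr ⟨h1, h2⟩
    · exact absurd hab (hBi a h1 b h2)
  -- Hall
  have hcond : ∀ s : Finset {a // a ∈ A}, s.card ≤ (s.biUnion (fun a => G.neighborFinset a.1)).card := by
    intro s
    set X := s.map (Function.Embedding.subtype (fun a => a ∈ A)) with hX
    set N := s.biUnion (fun a => G.neighborFinset a.1) with hN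
    have h1 : X.card = s.card := card_map _
    have hXA : ∀ x ∈ X, x ∈ A := by
      intro a ha
      rw [hX, mem_map] at ha
      obtain ⟨b, _, rfl⟩ := ha
      exact b.2
    have hXN : ∀ x ∈ X, ∀ u, G.Adj x u → u ∈ N := by
      intro a ha u hu
      rw [hX, mem_map] at ha
      obtain ⟨b, hb, rfl⟩ := ha
      exact mem_biUnion.2 ⟨b, hb, (G.mem_neighborFinset _ _).2 hu⟩
    have hNX : ∀ u ∈ N, ∃ x, G.Adj u x := by
      intro u hu
      rw [hN, mem_biUnion] at hu
      obtain ⟨b, _, hb⟩ := hu
      exact ⟨b.1, ((G.mem_neighborFinset _ _).1 hb).symm⟩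
    have h2 : ∑ x ∈ X, (N.filter (fun u => G.Adj x u)).card =
        ∑ v ∈ N, (X.filter (fun x => G.Adj x v)).card :=
      sum_card_bipartiteAbove_eq_sum_card_bipartiteBelow (fun x u => G.Adj x u)
    have h3' : ∀ x ∈ X, 3 ≤ (N.filter (fun u => G.Adj x u)).card := by
      intro x hx
      have hxW : x ∈ W := hsubW (mem_union_left _ (hXA x hx))
      obtain ⟨y, hy⟩ := (hW x).1 hxW
      have h4 := hd x y hy
      rw [← G.card_neighborFinset_eq_degree] at h4
      refine h4.trans (card_le_card ?_)
      intro u hu
      rw [G.mem_neighborFinset] at hu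
      exact mem_filter.2 ⟨hXN x hx u hu, hu⟩
    have h4' : ∀ v ∈ N, (X.filter (fun x => G.Adj x v)).card ≤ 3 := by
      intro v hv
      obtain ⟨x, hx⟩ := hNX v hv
      rw [← hdeg v x hx, ← G.card_neighborFinset_eq_degree]
      apply card_le_card
      intro u hu
      rw [mem_filter] at hu
      rw [G.mem_neighborFinset]
      exact hu.2.symm
    have h5 := sum_le_sum h3'
    have h6 := sum_le_sum h4'
    rw [sum_const, smul_eq_mul] at h5 h6
    omega
  obtain ⟨f, hf1, hf2⟩ := (all_card_le_biUnion_card_iff_exists_injective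
    (fun a : {a // a ∈ A} => G.neighborFinset a.1)).1 hcond
  have hf : ∀ a (ha : a ∈ A), G.Adj a (f ⟨a, ha⟩) := fun a ha =>
    (G.mem_neighborFinset _ _).1 (hf2 ⟨a, ha⟩)
  obtain ⟨m, hm⟩ : ∃ m : V → V, m = fun a => if ha : a ∈ A then f ⟨a, ha⟩ else a := ⟨_, rfl⟩
  have hmA : ∀ a ∈ A, G.Adj a (m a) := by
    intro a ha
    rw [hm]
    beta_reduce
    rw [dif_pos ha]
    exact hf a ha
  have hmB : ∀ a ∈ A, m a ∈ B := by
    intro a ha
    rcases hmemAB a (m a) (hmA a ha) with h | h
    · exact h.2
    · exact absurd h.1 (disjoint_left.1 hAB ha)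
  have hminj : ∀ a ∈ A, ∀ b ∈ A, m a = m b → a = b := by
    intro a ha b hb hab
    rw [hm] at hab
    beta_reduce at hab
    rw [dif_pos ha, dif_pos hb] at hab
    exact congrArg Subtype.val (hf1 hab)
  have hmsurj : ∀ b ∈ B, ∃ a ∈ A, m a = b := by
    have h1 : A.image m = B := by
      apply eq_of_subset_of_card_le
      · intro b hb
        rw [mem_image] at hb
        obtain ⟨a, ha, rfl⟩ := hb
        exact hmB a ha
      · rw [card_image_of_injOn (fun a ha b hb h => hminj a ha b hb h)]
        omega
    intro b hb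
    rw [← h1, mem_image] at hb
    exact hb
  apply flow A B m
  · intro e hne
    exact hmemAB (src e) (dst e) ⟨hne, e, Or.inl ⟨rfl, rfl⟩⟩
  · exact hAB
  · intro x hx
    obtain ⟨y, hy⟩ := hEvne x hx
    rw [hEv x]
    exact h3 x y hy
  · intro x hx
    obtain ⟨y, hy⟩ := hEvne x hx
    -- a vertex `a` of `A` such that `x = a` or `x = m a`
    obtain ⟨a, haA, hxa⟩ : ∃ a ∈ A, x = a ∨ x = m a := by
      rcases hmemAB x y hy with h | h
      · exact ⟨x, h.1, Or.inl rfl⟩
      · obtain ⟨a, ha, hax⟩ := hmsurj x h.1
        exact ⟨a, ha, Or.inr hax.symm⟩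
    obtain ⟨e, he⟩ := hjn a (m a) (hmA a haA)
    have hne : a ≠ m a := (hmA a haA).1
    have hmnA : m a ∉ A := fun h => disjoint_left.1 hAB h (hmB a haA)
    refine ⟨e, ?_, ?_, ?_⟩
    · unfold Ev
      rw [mem_filter]
      rcases he with ⟨h1, h2⟩ | ⟨h1, h2⟩
      · refine ⟨mem_univ _, by rw [h1, h2]; exact hne, ?_⟩
        rcases hxa with h | h
        · left; rw [h, h1]
        · right; rw [h, h2]
      · refine ⟨mem_univ _, by rw [h1, h2]; exact hne.symm, ?_⟩
        rcases hxa with h | h
        · right; rw [h, h2]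
        · left; rw [h, h1]
    · rcases he with ⟨h1, h2⟩ | ⟨h1, h2⟩
      · left; rw [h1, h2]; exact ⟨haA, rfl⟩
      · right; rw [h1, h2]; exact ⟨haA, rfl⟩
    · intro e' he' hM
      unfold Ev at he'
      rw [mem_filter] at he'
      obtain ⟨_, hne', hor⟩ := he'
      -- `e'` joins `a'` and `m a'`
      obtain ⟨a', ha', hj⟩ : ∃ a' ∈ A, Jn src dst e' a' (m a') := by
        rcases hM with ⟨h1, h2⟩ | ⟨h1, h2⟩
        · exact ⟨src e', h1, Or.inl ⟨rfl, h2.symm⟩⟩
        · exact ⟨dst e', h1, Or.inr ⟨h2.symm, rfl⟩⟩
      have hx' : x = a' ∨ x = m a' := by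
        rcases hj with ⟨h1, h2⟩ | ⟨h1, h2⟩
        · rcases hor with h | h
          · left; rw [← h, h1]
          · right; rw [← h, h2]
        · rcases hor with h | h
          · right; rw [← h, h1]
          · left; rw [← h, h2]
      have hmnA' : m a' ∉ A := fun h => disjoint_left.1 hAB h (hmB a' ha')
      have haa : a' = a := by
        rcases hx' with h | h <;> rcases hxa with h4 | h4
        · exact h.symm.trans h4
        · exact absurd (h4 ▸ h ▸ ha') hmnA
        · exact absurd (h ▸ h4 ▸ haA) hmnA'
        · exact hminj a' ha' a haA (h.symm.trans h4)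
      subst haa
      exact np e' e a' (m a') hne hj he

end Pool.Agent.L0h83.OD
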