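import Pool.Agent.L0h99.BC.Mass
import Pool.Agent.L0h99.OD.Stm

/-!
# Project OD (helper99): the two colour classes around an edge
-/

set_option autoImplicit false
set_option linter.unusedSectionVars false

namespace Pool.Agent.L0h83.OD

open Finset Pool.Agent.TH676.Z Pool.Agent.Y335.FL Pool.Agent.Y335.FL.Ahl

section walks

variable {V : Type} {Ad : V → V → Prop}

/-- two non-backtracking walks with the same ends have the same length -/
lemma uniq (hirr : ∀ a, ¬ Ad a a) (hs : ∀ a b, Ad a b → Ad b a) (hg : Girth Ad 12) :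
    ∀ (M L : ℕ) (v w : ℕ → V), NB Ad L v → NB Ad M w → v 0 = w 0 → v L = w M → L + M ≤ 11 → L = M := by
  intro M
  induction M with
  | zero =>
    intro L v w hv hw h0 h1 hLM
    by_contra hne
    exact hv.ne hirr hg (by omega) 0 L (by omega) le_rfl (h0.trans h1.symm)
  | succ M ih =>
    intro L v w hv hw h0 h1 hLM
    rcases Nat.eq_zero_or_pos L with hL | hL
    · subst hL
      exact absurd (h0.symm.trans h1) (hw.ne hirr hg (by omega) 0 (M + 1) (by omega) le_rfl)
    · obtain ⟨K, rfl⟩ : ∃ K, L = K + 1 := ⟨L - 1, by omega⟩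
      by_cases h2 : v 1 = w 1
      · have h3 := ih K (fun k => v (k + 1)) (fun k => w (k + 1))
          ⟨fun k hk => hv.adj (k + 1) (by omega), fun k hk => hv.nb (k + 1) (by omega)⟩
          ⟨fun k hk => hw.adj (k + 1) (by omega), fun k hk => hw.nb (k + 1) (by omega)⟩
          h2 h1 (by omega)
        omega
      · exact absurd h1 (join_ne hirr hs hg hv hw h0 (fun _ _ => h2) (by omega) hLM)

/-- `w` is the end of a non-backtracking walk from `y` of odd length at most five -/
def OR (Ad : V → V → Prop) (y w : V) : Prop :=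
  ∃ L : ℕ, L ≤ 5 ∧ L % 2 = 1 ∧ ∃ v : ℕ → V, NB Ad L v ∧ v 0 = y ∧ v L = w

lemma indep (hirr : ∀ a, ¬ Ad a a) (hs : ∀ a b, Ad a b → Ad b a) (hg : Girth Ad 12) {y w w' : V}
    (h : OR Ad y w) (h' : OR Ad y w') : ¬ Ad w w' := by
  intro hadj
  obtain ⟨a, ha5, hao, v, hv, hv0, hva⟩ := h
  obtain ⟨b, hb5, hbo, u, hu, hu0, hub⟩ := h'
  by_cases h1 : w' = v (a - 1)
  · have h2 := uniq hirr hs hg b (a - 1) v u
      ⟨fun k hk => hv.adj k (by omega), fun k hk => hv.nb k (by omega)⟩ hu (hv0.trans hu0.symm)
      (h1.symm.trans hub.symm) (by omega)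
    omega
  · have h2 := uniq hirr hs hg b (a + 1) (fun k => if k ≤ a then v k else w') u
      ⟨fun k hk => ?_, fun k hk => ?_⟩ hu (by simpa using hv0.trans hu0.symm)
      (by simpa using hub.symm) (by omega)
    · omega
    · by_cases h3 : k + 1 ≤ a
      · simp only [if_pos h3, if_pos (show k ≤ a by omega)]
        exact hv.adj k h3
      · have h4 : k = a := by omega
        subst h4
        simp only [if_neg h3, le_refl, if_true]
        rw [hva]
        exact hadj
    · by_cases h3 : k + 2 ≤ a
      · simp only [if_pos h3, if_pos (show k ≤ a by omega)]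
        exact hv.nb k h3
      · have h4 : k = a - 1 := by omega
        subst h4
        simp only [if_neg h3, if_pos (show a - 1 ≤ a by omega)]
        exact fun h => h1 h.symm

end walks

section sets

variable {V : Type} [Fintype V] [DecidableEq V] {G : SimpleGraph V} [DecidableRel G.Adj]

/-- the vertices with odd distance from `y` -/
noncomputable def AA (G : SimpleGraph V) [DecidableRel G.Adj] (x y : V) : Finset V :=
  (range 6).biUnion (fun i => if i % 2 = 1 then S G i x y else S G i y x)

lemma AA_OR {x y w : V} (h : w ∈ AA G x y) : OR G.Adj y w := by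
  unfold AA at h
  rw [mem_biUnion] at h
  obtain ⟨i, hi, hw⟩ := h
  rw [mem_range] at hi
  split_ifs at hw with h1
  · obtain ⟨v, hv, h2, h3, h4⟩ := mem_S.1 hw
    exact ⟨i, by omega, h1, fun k => v (k + 1),
      ⟨fun k hk => hv.adj (k + 1) (by omega), fun k hk => hv.nb (k + 1) (by omega)⟩, h3, h4⟩
  · obtain ⟨v, hv, h2, h3, h4⟩ := mem_S.1 hw
    exact ⟨i + 1, by omega, by omega, v, hv, h2, h4⟩

lemma AA_indep (hg : Girth G.Adj 12) {x y w w' : V} (h : w ∈ AA G x y) (h' : w' ∈ AA G x y) :
    ¬ G.Adj w w' :=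
  indep (fun a => G.loopless.irrefl a) (fun a b h => h.symm) hg (AA_OR h) (AA_OR h')

lemma T_pow (hg : Girth G.Adj 12) (hd : ∀ x y, G.Adj x y → 3 ≤ G.degree x) {x y : V}
    (h : G.Adj x y) : ∀ i ≤ 5, 2 ^ i ≤ T G i x y := by
  intro i
  induction i with
  | zero => intro _; rw [T_zero h]; norm_num
  | succ i ih =>
    intro hi
    have h1 := ih (by omega)
    have h2 := Pool.Agent.L0h99.BC.T_two hg hd i (by omega) x y h
    rw [pow_succ]
    omega

lemma AA_card (hg : Girth G.Adj 12) (hd : ∀ x y, G.Adj x y → 3 ≤ G.degree x) {x y : V}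
    (h : G.Adj x y) : 63 ≤ (AA G x y).card := by
  unfold AA
  rw [card_biUnion]
  · have h1 : ∀ i ∈ range 6, 2 ^ i ≤ (if i % 2 = 1 then S G i x y else S G i y x).card := by
      intro i hi
      rw [mem_range] at hi
      split_ifs
      · exact T_pow hg hd h i (by omega)
      · exact T_pow hg hd h.symm i (by omega)
    have h2 := sum_le_sum h1
    refine le_trans (le_of_eq ?_) h2
    decide
  · intro i hi j hj hij
    have hi' : i < 6 := mem_range.1 hi
    have hj' : j < 6 := mem_range.1 hj
    have key : ∀ x y : V, G.Adj x y → Disjoint (S G i x y) (S G j x y) := by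
      intro x y hxy
      rcases lt_or_gt_of_ne hij with h2 | h2
      · exact disj_E hg i j h2 (by omega) x y hxy
      · exact (disj_E hg j i h2 (by omega) x y hxy).symm
    change Disjoint (if i % 2 = 1 then S G i x y else S G i y x)
      (if j % 2 = 1 then S G j x y else S G j y x)
    split_ifs
    · exact key x y h
    · exact disj_D hg (by omega)
    · exact disj_D hg (by omega)
    · exact key y x h.symm

lemma AA_disj (hg : Girth G.Adj 12) {x y : V} (h : G.Adj x y) : Disjoint (AA G x y) (AA G y x) := by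
  rw [Finset.disjoint_left]
  intro z h1 h2
  unfold AA at h1 h2
  rw [mem_biUnion] at h1 h2
  obtain ⟨i, hi, h1⟩ := h1
  obtain ⟨j, hj, h2⟩ := h2
  have hi' : i < 6 := mem_range.1 hi
  have hj' : j < 6 := mem_range.1 hj
  have key : ∀ i j : ℕ, i ≠ j → i < 6 → j < 6 → ∀ x y : V, G.Adj x y →
      Disjoint (S G i x y) (S G j x y) := by
    intro i j hij hi' hj' x y hxy
    rcases lt_or_gt_of_ne hij with h2 | h2
    · exact disj_E hg i j h2 (by omega) x y hxy
    · exact (disj_E hg j i h2 (by omega) x y hxy).symm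
  split_ifs at h1 h2 with a b b
  · exact disjoint_left.1 (disj_D hg (by omega)) h1 h2
  · exact disjoint_left.1 (key i j (by rintro rfl; exact b a) hi' hj' x y h) h1 h2
  · exact disjoint_left.1 (key i j (by rintro rfl; exact a b) hi' hj' y x h.symm) h1 h2
  · exact disjoint_left.1 (disj_D hg (by omega)) h1 h2

lemma AA_nis {x y w : V} (h : w ∈ AA G x y) : ∃ z, G.Adj w z := by
  unfold AA at h
  rw [mem_biUnion] at h
  obtain ⟨i, hi, hw⟩ := h
  split_ifs at hw
  · exact Pool.Agent.L0h99.BC.mem_S_adj hw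
  · exact Pool.Agent.L0h99.BC.mem_S_adj hw

end sets

end Pool.Agent.L0h83.OD
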