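import Pool.Agent.L0h83.OD.Lev

/-!
# Project OD (helper99), module MAT: a matching with 63 edges
-/

set_option autoImplicit false
set_option linter.unusedSectionVars false

namespace Pool.Agent.L0h83.OD

open Finset Pool.Agent.TH676.Z Pool.Agent.Y335.FL Pool.Agent.Y335.FL.Ahl Pool.Agent.L0h99.OD

variable {V : Type} [Fintype V] [DecidableEq V]

/-- the set of the neighbours -/
def Nb (G : SimpleGraph V) [DecidableRel G.Adj] (X : Finset V) : Finset V :=
  X.biUnion (fun x => G.neighborFinset x)

lemma mem_Nb {G : SimpleGraph V} [DecidableRel G.Adj] {X : Finset V} {v : V} :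
    v ∈ Nb G X ↔ ∃ x ∈ X, G.Adj x v := by
  simp [Nb]

/-- Hall's condition for the independent sets with at most 63 elements -/
lemma hall (G : SimpleGraph V) [DecidableRel G.Adj] (hg : Girth G.Adj 12)
    (hd : ∀ x y, G.Adj x y → 3 ≤ G.degree x) (P : Finset V) (hP : P.card ≤ 63)
    (hnis : ∀ x ∈ P, ∃ y, G.Adj x y) (hind : ∀ x ∈ P, ∀ y ∈ P, ¬ G.Adj x y) :
    ∀ n : ℕ, ∀ X : Finset V, X.card = n → X ⊆ P → X.card ≤ (Nb G X).card := by
  classical
  intro n
  induction n using Nat.strong_induction_on with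
  | _ n ih =>
    intro X hXn hXP
    by_contra hlt
    push Not at hlt
    set N := Nb G X with hN
    -- the degrees on the other side
    have hmin : ∀ v ∈ N, 2 ≤ (X.filter (fun x => G.Adj v x)).card := by
      intro v hv
      by_contra hcon
      push Not at hcon
      obtain ⟨x, hx, hxv⟩ := mem_Nb.1 hv
      have hx1 : x ∈ X.filter (fun x => G.Adj v x) := mem_filter.2 ⟨hx, hxv.symm⟩
      have h1 : (X.filter (fun x => G.Adj v x)).card = 1 := by
        have := card_pos.2 ⟨x, hx1⟩
        omega
      obtain ⟨x', hx'⟩ := card_eq_one.1 h1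
      have hxx : x = x' := by rw [hx', mem_singleton] at hx1; exact hx1
      subst hxx
      have h2 : (X.erase x).card = n - 1 := by rw [card_erase_of_mem hx, hXn]
      have hXpos : 0 < X.card := card_pos.2 ⟨x, hx⟩
      have h3 := ih (n - 1) (by omega) (X.erase x) h2 ((erase_subset _ _).trans hXP)
      have h4 : Nb G (X.erase x) ⊆ N.erase v := by
        intro u hu
        obtain ⟨z, hz, hzu⟩ := mem_Nb.1 hu
        rw [mem_erase] at hz
        rw [mem_erase]
        refine ⟨?_, mem_Nb.2 ⟨z, hz.2, hzu⟩⟩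
        rintro rfl
        have h5 : z ∈ X.filter (fun x => G.Adj u x) := mem_filter.2 ⟨hz.2, hzu.symm⟩
        rw [hx', mem_singleton] at h5
        exact hz.1 h5
      have h5 := card_le_card h4
      rw [card_erase_of_mem hv] at h5
      have h6 : 0 < N.card := card_pos.2 ⟨v, hv⟩
      omega
    have hdis : Disjoint X N := by
      rw [disjoint_left]
      intro v hv hv'
      obtain ⟨x, hx, hxv⟩ := mem_Nb.1 hv'
      exact hind x (hXP hx) v (hXP hv) hxv
    have hXne : X.Nonempty := by
      rw [← card_pos]; omega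
    -- the graph on `X ∪ N`
    set W := X ∪ N with hW
    have hWcard : W.card = X.card + N.card := card_union_of_disjoint hdis
    haveI : Nonempty {v // v ∈ W} := by
      obtain ⟨x, hx⟩ := hXne
      exact ⟨⟨x, mem_union_left _ hx⟩⟩
    let H : SimpleGraph {v // v ∈ W} := G.comap Subtype.val
    letI : DecidableRel H.Adj := Classical.decRel _
    have hHadj : ∀ a b : {v // v ∈ W}, H.Adj a b ↔ G.Adj a.1 b.1 := fun a b => Iff.rfl
    have hHdeg : ∀ a : {v // v ∈ W}, H.degree a = (W.filter (fun u => G.Adj a.1 u)).card := by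
      intro a
      rw [← H.card_neighborFinset_eq_degree, ← card_map (Function.Embedding.subtype (fun v => v ∈ W))]
      congr 1
      ext u
      simp only [mem_map, SimpleGraph.mem_neighborFinset, mem_filter]
      constructor
      · rintro ⟨b, hb, rfl⟩
        exact ⟨b.2, hb⟩
      · rintro ⟨h1, h2⟩
        exact ⟨⟨u, h1⟩, h2, rfl⟩
    have hXdeg : ∀ x ∈ X, 3 ≤ (W.filter (fun u => G.Adj x u)).card ∧
        3 ≤ (N.filter (fun u => G.Adj x u)).card := by
      intro x hx
      obtain ⟨y, hy⟩ := hnis x (hXP hx)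
      have h1 := hd x y hy
      rw [← G.card_neighborFinset_eq_degree] at h1
      constructor
      · refine h1.trans (card_le_card ?_)
        intro u hu
        rw [G.mem_neighborFinset] at hu
        exact mem_filter.2 ⟨mem_union_right _ (mem_Nb.2 ⟨x, hx, hu⟩), hu⟩
      · refine h1.trans (card_le_card ?_)
        intro u hu
        rw [G.mem_neighborFinset] at hu
        exact mem_filter.2 ⟨mem_Nb.2 ⟨x, hx, hu⟩, hu⟩
    have hdeg2 : ∀ a : {v // v ∈ W}, 2 ≤ H.degree a := by
      intro a
      rw [hHdeg]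
      rcases mem_union.1 a.2 with h | h
      · have := (hXdeg a.1 h).1
        omega
      · refine (hmin a.1 h).trans (card_le_card ?_)
        intro u hu
        rw [mem_filter] at hu
        exact mem_filter.2 ⟨mem_union_left _ hu.1, hu.2⟩
    have hgH : Girth H.Adj 12 := by
      intro k hk v hv hadj
      exact hg k hk (fun i => (v i).1) (fun i j h => hv (Subtype.ext h)) (fun i => hadj i)
    have hmoore := ahl {v // v ∈ W} H hdeg2 hgH
    -- counting the edges
    have hcount : 6 * X.card ≤ 2 * H.edgeFinset.card := by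
      rw [← H.sum_degrees_eq_twice_card_edges]
      have h1 : ∑ a : {v // v ∈ W}, H.degree a = ∑ a ∈ W, (W.filter (fun u => G.Adj a u)).card := by
        rw [← sum_coe_sort W]
        exact sum_congr rfl fun a _ => hHdeg a
      rw [h1, hW, sum_union hdis, ← hW]
      have h2 : 3 * X.card ≤ ∑ x ∈ X, (N.filter (fun u => G.Adj x u)).card := by
        have := sum_le_sum fun x hx => (hXdeg x hx).2
        rw [sum_const, smul_eq_mul] at this
        omega
      have h3 : ∑ x ∈ X, (N.filter (fun u => G.Adj x u)).card ≤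
          ∑ x ∈ X, (W.filter (fun u => G.Adj x u)).card := by
        refine sum_le_sum fun x _ => card_le_card ?_
        intro u hu
        rw [mem_filter] at hu
        exact mem_filter.2 ⟨mem_union_right _ hu.1, hu.2⟩
      have h4 : ∑ x ∈ X, (N.filter (fun u => G.Adj x u)).card =
          ∑ v ∈ N, (X.filter (fun x => G.Adj x v)).card :=
        sum_card_bipartiteAbove_eq_sum_card_bipartiteBelow (fun x u => G.Adj x u)
      have h5 : ∑ v ∈ N, (X.filter (fun x => G.Adj x v)).card ≤
          ∑ v ∈ N, (W.filter (fun u => G.Adj v u)).card := by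
        refine sum_le_sum fun v _ => card_le_card ?_
        intro u hu
        rw [mem_filter] at hu
        exact mem_filter.2 ⟨mem_union_left _ hu.1, hu.2.symm⟩
      omega
    have hXle : X.card ≤ 63 := (card_le_card hXP).trans hP
    have hWle : Fintype.card {v // v ∈ W} + 1 ≤ 2 * X.card := by
      rw [Fintype.card_coe, hWcard]
      omega
    set n' : ℝ := (Fintype.card {v // v ∈ W} : ℝ) with hn'
    set m' : ℝ := (H.edgeFinset.card : ℝ) with hm'
    have hn0 : 0 < n' := by
      rw [hn']
      exact_mod_cast Fintype.card_pos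
    have e1 : 6 * (X.card : ℝ) ≤ 2 * m' := by rw [hm']; exact_mod_cast hcount
    have e2 : n' + 1 ≤ 2 * (X.card : ℝ) := by rw [hn']; exact_mod_cast hWle
    have e3 : (X.card : ℝ) ≤ 63 := by exact_mod_cast hXle
    have e4 : 2 ≤ 2 * m' / n' - 1 := by
      rw [le_sub_iff_add_le, le_div_iff₀ hn0]
      linarith
    have e5 : (126 : ℝ) ≤ 2 * ∑ i ∈ range 6, (2 * m' / n' - 1) ^ i := by
      have h1 : ∑ i ∈ range 6, (2 : ℝ) ^ i ≤ ∑ i ∈ range 6, (2 * m' / n' - 1) ^ i :=
        sum_le_sum fun i _ => pow_le_pow_left₀ (by norm_num) e4 i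
      have h2 : ∑ i ∈ range 6, (2 : ℝ) ^ i = 63 := by norm_num [sum_range_succ]
      linarith
    linarith

theorem t_MAT : S_MAT := by
  classical
  intro V _ _ G _ hg hd hex
  obtain ⟨x, y, hxy⟩ := hex
  obtain ⟨P, hPsub, hPcard⟩ := exists_subset_card_eq (AA_card hg hd hxy)
  have hind : ∀ a ∈ P, ∀ b ∈ P, ¬ G.Adj a b := fun a ha b hb => AA_indep hg (hPsub ha) (hPsub hb)
  have hnis : ∀ a ∈ P, ∃ b, G.Adj a b := fun a ha => AA_nis (hPsub ha)
  have hH := hall G hg hd P hPcard.le hnis hind
  have hcond : ∀ s : Finset {a // a ∈ P}, s.card ≤ (s.biUnion (fun a => G.neighborFinset a.1)).card := by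
    intro s
    have h1 : (s.map (Function.Embedding.subtype (fun a => a ∈ P))).card = s.card := card_map _
    have h2 : s.map (Function.Embedding.subtype (fun a => a ∈ P)) ⊆ P := by
      intro a ha
      rw [mem_map] at ha
      obtain ⟨b, _, rfl⟩ := ha
      exact b.2
    have h3 := hH _ _ rfl h2
    rw [h1] at h3
    refine h3.trans (card_le_card ?_)
    intro u hu
    obtain ⟨z, hz, hzu⟩ := mem_Nb.1 hu
    rw [mem_map] at hz
    obtain ⟨b, hb, rfl⟩ := hz
    exact mem_biUnion.2 ⟨b, hb, (G.mem_neighborFinset _ _).2 hzu⟩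
  obtain ⟨f, hf1, hf2⟩ := (all_card_le_biUnion_card_iff_exists_injective
    (fun a : {a // a ∈ P} => G.neighborFinset a.1)).1 hcond
  have hf : ∀ a (ha : a ∈ P), G.Adj a (f ⟨a, ha⟩) := fun a ha =>
    (G.mem_neighborFinset _ _).1 (hf2 ⟨a, ha⟩)
  refine ⟨P, fun a => if ha : a ∈ P then f ⟨a, ha⟩ else a, hPcard, ?_, ?_, ?_⟩
  · intro a ha
    beta_reduce
    rw [dif_pos ha]
    exact hf a ha
  · intro a ha b hb hab
    beta_reduce
    rw [dif_pos ha, dif_pos hb]
    intro h
    exact hab (congrArg Subtype.val (hf1 h))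
  · intro a ha h
    beta_reduce at h
    rw [dif_pos ha] at h
    exact hind a ha _ h (hf a ha)

end Pool.Agent.L0h83.OD
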